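import Pool.Agent.K3h46.HP.Stm

/-! # HP project (helper46, MP_868bb7_ag): brick PH (helper17) -/

set_option autoImplicit false

namespace Pool.Agent.K3h17.HP

open Finset Pool.Agent.K3h46.HP

/-- `(i, 0) ↦ (i, 0)`, `(i, 1) ↦ (σ i, 1)` -/
def tw {k : ℕ} (σ : Equiv.Perm (Fin k)) : Fin k × Fin 2 ≃ Fin k × Fin 2 where
  toFun p := if p.2 = 0 then p else (σ p.1, p.2)
  invFun p := if p.2 = 0 then p else (σ.symm p.1, p.2)
  left_inv := by
    rintro ⟨i, a⟩
    fin_cases a <;> simp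
  right_inv := by
    rintro ⟨i, a⟩
    fin_cases a <;> simp

theorem tw_zero {k : ℕ} (σ : Equiv.Perm (Fin k)) (i : Fin k) : tw σ (i, 0) = (i, 0) := by
  simp [tw]

theorem tw_one {k : ℕ} (σ : Equiv.Perm (Fin k)) (i : Fin k) : tw σ (i, 1) = (σ i, 1) := by
  simp [tw]

theorem t_PH : StmPH := by
  intro X w k h
  have h1 : ∀ e : Fin k × Fin 2 ≃ Fin (k * 2), ∑ σ : Equiv.Perm (Fin k),
      ∏ i : Fin k, X.edge w (e (i, 0)) (e (σ i, 1)) = 0 := by
    intro e
    have h2 := congrArg (X.pull (Fin.addCases (motive := fun _ => Fin (k * 2))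
      (fun i : Fin k => e (i, 0)) (fun j : Fin k => e (j, 1)))) h
    rw [map_zero] at h2
    rw [← h2]
    unfold Powers.symPower
    rw [map_sum]
    refine Finset.sum_congr rfl fun σ _ => ?_
    rw [map_prod]
    refine Finset.prod_congr rfl fun i _ => ?_
    rw [pull_edge, Fin.addCases_left, Fin.addCases_right]
  have h2 : ∑ σ : Equiv.Perm (Fin k), ∑ e : Fin k × Fin 2 ≃ Fin (k * 2),
      ∏ i : Fin k, X.edge w (e (i, 0)) (e (σ i, 1)) = 0 := by
    rw [Finset.sum_comm]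
    exact Finset.sum_eq_zero fun e _ => h1 e
  have h3 : ∀ σ : Equiv.Perm (Fin k), ∑ e : Fin k × Fin 2 ≃ Fin (k * 2),
      ∏ i : Fin k, X.edge w (e (i, 0)) (e (σ i, 1)) = X.selfPower w k := by
    intro σ
    unfold Powers.selfPower
    refine Fintype.sum_equiv (Equiv.equivCongr (tw σ).symm (Equiv.refl _)) _ _ fun e => ?_
    refine Finset.prod_congr rfl fun i _ => ?_
    simp only [Equiv.equivCongr_apply_apply, Equiv.symm_symm, Equiv.refl_apply, tw_zero, tw_one]
  rw [Finset.sum_congr rfl fun σ _ => h3 σ, Finset.sum_const, ← Nat.cast_smul_eq_nsmul ℚ,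
    smul_eq_zero] at h2
  rcases h2 with h2 | h2
  · exfalso
    rw [Finset.card_univ, Fintype.card_perm, Fintype.card_fin] at h2
    exact (Nat.cast_ne_zero.2 (Nat.factorial_ne_zero k)) h2
  · exact h2

end Pool.Agent.K3h17.HP
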